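import Mathlib

/-!
# A C-principal family which is not closed under the transformation T
-/

set_option autoImplicit false

namespace Pool.Agent.Results.MP_c9c291_lc.RegularFamily

/-- A family of languages: a property of the languages over each (finite) alphabet. -/
abbrev Family := (X : Type) → Set (List X) → Prop

/-- An agsm: finite state set `Q`, initial state, final states, transition map and output map. -/
structure Agsm (X Y : Type) where
  Q : Type
  finQ : Finite Q
  q₀ : Q
  final : Set Q
  t : Q → X → Q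
  h : Q → X → List Y

/-- The state reached from `q` after reading a word. -/
def Agsm.run {X Y : Type} (g : Agsm X Y) (q : g.Q) (w : List X) : g.Q := w.foldl g.t q

/-- The output produced from `q` on a word. -/
def Agsm.out {X Y : Type} (g : Agsm X Y) : g.Q → List X → List Y
  | _, [] => []
  | q, x :: w => g.h q x ++ g.out (g.t q x) w

/-- The inverse image `g⁻¹(M)`: the words on which `g` is defined with value in `M`. -/
def Agsm.inv {X Y : Type} (g : Agsm X Y) (M : Set (List Y)) : Set (List X) :=
  {w | g.run g.q₀ w ∈ g.final ∧ g.out g.q₀ w ∈ M}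

/-- The languages obtained from `L₀` by finitely many inverse agsm mappings. -/
inductive AgsmGen {X₀ : Type} (L₀ : Set (List X₀)) : Family
  | base : AgsmGen L₀ X₀ L₀
  | inv {X Y : Type} (_ : Finite X) (g : Agsm X Y) (M : Set (List Y)) :
      AgsmGen L₀ Y M → AgsmGen L₀ X (g.inv M)

/-- The languages obtained from `L₀` by finitely many operations from `C`: inverse homomorphisms
and intersections with regular sets. -/
inductive CGen {X₀ : Type} (L₀ : Set (List X₀)) : Family
  | base : CGen L₀ X₀ L₀
  | inv {X Y : Type} (_ : Finite X) (h : X → List Y) (M : Set (List Y)) :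
      CGen L₀ Y M → CGen L₀ X {w | w.flatMap h ∈ M}
  | inter {X : Type} (M R : Set (List X)) (_ : Language.IsRegular (R : Language X)) :
      CGen L₀ X M → CGen L₀ X (M ∩ R)

/-- `F` is an `{agsm⁻¹}`-principal family. -/
def IsAgsmPrincipal (F : Family) : Prop :=
  (∀ (X Y : Type) [Finite X] [Finite Y] (g : Agsm X Y) (M : Set (List Y)), F Y M →
    F X (g.inv M)) ∧
  ∃ (X₀ : Type) (_ : Finite X₀) (L₀ : Set (List X₀)), F X₀ L₀ ∧
    ∀ (X : Type) [Finite X] (L : Set (List X)), F X L → AgsmGen L₀ X L

/-- `F` is a `C`-principal family. -/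
def IsCPrincipal (F : Family) : Prop :=
  ((∀ (X Y : Type) [Finite X] [Finite Y] (h : X → List Y) (M : Set (List Y)), F Y M →
      F X {w | w.flatMap h ∈ M}) ∧
    ∀ (X : Type) [Finite X] (M R : Set (List X)), F X M →
      Language.IsRegular (R : Language X) → F X (M ∩ R)) ∧
  ∃ (X₀ : Type) (_ : Finite X₀) (L₀ : Set (List X₀)), F X₀ L₀ ∧
    ∀ (X : Type) [Finite X] (L : Set (List X)), F X L → CGen L₀ X L

/-! ### The transformation `T` -/

/-- The alphabet `X` with the three new letters `y`, `ȳ`, `z`. -/
inductive Ext (X : Type) : Type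
  | old (x : X) : Ext X
  | y : Ext X
  | yb : Ext X
  | z : Ext X

/-- The variables `v₁, v₂, v₃` of the grammar for `A`. -/
inductive Var : Type
  | v1 : Var
  | v2 : Var
  | v3 : Var

/-- The words generated by the variables: `v₁ → y v₂ ȳ | v₃ z | z`, `v₂ → v₂ x | v₁` for `x` in
`X ∪ {y}`, and `v₃ → v₃ x | ȳ` for `x` in `X ∪ {y, ȳ}`. -/
inductive Der (X : Type) : Var → List (Ext X) → Prop
  | v1a (w : List (Ext X)) : Der X .v2 w → Der X .v1 ([.y] ++ w ++ [.yb])
  | v1b (w : List (Ext X)) : Der X .v3 w → Der X .v1 (w ++ [.z])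
  | v1c : Der X .v1 [.z]
  | v2a (w : List (Ext X)) (x : X) : Der X .v2 w → Der X .v2 (w ++ [.old x])
  | v2b (w : List (Ext X)) : Der X .v2 w → Der X .v2 (w ++ [.y])
  | v2c (w : List (Ext X)) : Der X .v1 w → Der X .v2 w
  | v3a (w : List (Ext X)) (x : X) : Der X .v3 w → Der X .v3 (w ++ [.old x])
  | v3b (w : List (Ext X)) : Der X .v3 w → Der X .v3 (w ++ [.y])
  | v3c (w : List (Ext X)) : Der X .v3 w → Der X .v3 (w ++ [.yb])
  | v3d : Der X .v3 [.yb]

/-- The language `A`, generated from `v₀ → v₁ | ε`. -/
def langA (X : Type) : Set (List (Ext X)) := {w | w = [] ∨ Der X .v1 w}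

/-- The language `B = y + (ȳ X* y⁺)*`. -/
def langB (X : Type) : Set (List (Ext X)) :=
  {w | w = [.y] ∨ ∃ l : List (List X × ℕ),
    w = (l.map fun p => [.yb] ++ p.1.map .old ++ List.replicate (p.2 + 1) .y).flatten}

/-- `Body f w`: `w` has the form `f₁ A f₂ A ⋯ A f_n`, where `f = f₁ f₂ ⋯ f_n`. -/
inductive Body {X : Type} : List X → List (Ext X) → Prop
  | nil : Body [] []
  | single (x : X) : Body [x] [.old x]
  | cons (x x' : X) (f : List X) (a w : List (Ext X)) : a ∈ langA X → Body (x' :: f) w →
      Body (x :: x' :: f) ([.old x] ++ a ++ w)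

/-- The transformation `T(L) = { z ȳ f₁ A f₂ A ⋯ A f_n B : f₁ ⋯ f_n ∈ L }`. -/
def T {X : Type} (L : Set (List X)) : Set (List (Ext X)) :=
  {w | ∃ f ∈ L, ∃ u b : List (Ext X), Body f u ∧ b ∈ langB X ∧ w = [.z, .yb] ++ u ++ b}

/-- `F` is closed under `T`. -/
def IsClosedUnderT (F : Family) : Prop :=
  ∀ (X : Type) [Finite X] (L : Set (List X)), F X L → F (Ext X) (T L)

/-! ### The regular languages -/

/-- The family of the regular languages. -/
def Reg : Family := fun X L => Language.IsRegular (L : Language X)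

theorem reg_inv {X Y : Type} (g : Agsm X Y) {M : Set (List Y)} (hM : Reg Y M) :
    Reg X (g.inv M) := by
  obtain ⟨σ, _, D, hD⟩ := hM
  have := g.finQ
  have := Fintype.ofFinite g.Q
  refine ⟨g.Q × σ, inferInstance, ⟨fun p x => (g.t p.1 x, D.evalFrom p.2 (g.h p.1 x)),
    (g.q₀, D.start), {p | p.1 ∈ g.final ∧ p.2 ∈ D.accept}⟩, ?_⟩
  have key : ∀ (w : List X) (q : g.Q) (s : σ),
      List.foldl (fun (p : g.Q × σ) x => (g.t p.1 x, D.evalFrom p.2 (g.h p.1 x))) (q, s) w =
        (g.run q w, D.evalFrom s (g.out q w)) := by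
    intro w
    induction w with
    | nil => intro q s; rfl
    | cons x w ih =>
      intro q s
      rw [List.foldl_cons, ih, Agsm.out, DFA.evalFrom_of_append]
      rfl
  ext w
  change List.foldl _ (g.q₀, D.start) w ∈ {p : g.Q × σ | p.1 ∈ g.final ∧ p.2 ∈ D.accept} ↔ _
  rw [key]
  have h1 : g.out g.q₀ w ∈ M ↔ D.evalFrom D.start (g.out g.q₀ w) ∈ D.accept := by
    change g.out g.q₀ w ∈ (M : Language Y) ↔ _
    rw [← hD]
    rfl
  change (g.run g.q₀ w ∈ g.final ∧ _) ↔ (g.run g.q₀ w ∈ g.final ∧ g.out g.q₀ w ∈ M)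
  rw [h1]

theorem reg_nil : Reg Unit ({[]} : Set (List Unit)) := by
  refine ⟨Bool, inferInstance, ⟨fun _ _ => false, true, {true}⟩, ?_⟩
  ext w
  change List.foldl (fun _ _ => false) true w ∈ ({true} : Set Bool) ↔ w ∈ ({[]} : Set (List Unit))
  cases w with
  | nil => simp
  | cons a w =>
    have : ∀ (w : List Unit), List.foldl (fun (_ : Bool) (_ : Unit) => false) false w = false := by
      intro w
      induction w with
      | nil => rfl
      | cons _ w ih => exact ih
    simp [this]

theorem reg_agsm : IsAgsmPrincipal Reg := by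
  refine ⟨fun X Y _ _ g M hM => reg_inv g hM, Unit, inferInstance, {[]}, reg_nil, ?_⟩
  intro X _ L hL
  obtain ⟨σ, hσ, D, hD⟩ := hL
  let g : Agsm X Unit := ⟨σ, inferInstance, D.start, D.accept, D.step, fun _ _ => []⟩
  have hout : ∀ (w : List X) (q : g.Q), g.out q w = [] := by
    intro w
    induction w with
    | nil => intro q; rfl
    | cons x w ih => intro q; rw [Agsm.out, ih]; rfl
  have : L = g.inv {[]} := by
    ext w
    change w ∈ (L : Language X) ↔ _
    rw [← hD]
    change D.evalFrom D.start w ∈ D.accept ↔ (w.foldl D.step D.start ∈ D.accept ∧ _)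
    rw [hout]
    exact ⟨fun h => ⟨h, rfl⟩, fun h => h.1⟩
  rw [this]
  exact AgsmGen.inv inferInstance g _ AgsmGen.base

theorem reg_c : IsCPrincipal Reg := by
  refine ⟨⟨?_, ?_⟩, Unit, inferInstance, {[]}, reg_nil, ?_⟩
  · intro X Y _ _ h M hM
    let g : Agsm X Y := ⟨Unit, inferInstance, (), Set.univ, fun _ _ => (), fun _ x => h x⟩
    have hout : ∀ (w : List X) (q : g.Q), g.out q w = w.flatMap h := by
      intro w
      induction w with
      | nil => intro q; rfl
      | cons x w ih => intro q; rw [Agsm.out, ih]; rfl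
    have : {w : List X | w.flatMap h ∈ M} = g.inv M := by
      ext w
      change w.flatMap h ∈ M ↔ (_ ∧ g.out g.q₀ w ∈ M)
      rw [hout]
      exact ⟨fun h => ⟨Set.mem_univ _, h⟩, fun h => h.2⟩
    rw [this]
    exact reg_inv g hM
  · intro X _ M R hM hR
    have : (M ∩ R : Set (List X)) = ((M : Language X) ⊓ (R : Language X) : Language X) := rfl
    exact Language.IsRegular.inf hM hR
  · intro X _ L hL
    have : L = {w : List X | w.flatMap (fun _ => ([] : List Unit)) ∈ ({[]} : Set (List Unit))} ∩
        L := by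
      ext w
      constructor
      · intro h
        refine ⟨?_, h⟩
        change w.flatMap (fun _ => ([] : List Unit)) = []
        simp
      · exact fun h => h.2
    rw [this]
    exact CGen.inter _ _ hL (CGen.inv inferInstance _ _ CGen.base)

/-! ### Not closed under `T` -/

/-- the word `yⁿ z ȳᵐ` -/
def yw (n m : ℕ) : List (Ext Unit) := List.replicate n .y ++ [.z] ++ List.replicate m .yb

theorem yw_last {n m : ℕ} {w : List (Ext Unit)} {a : Ext Unit} (h : w ++ [a] = yw n m)
    (hz : a ≠ .z) : a = .yb ∧ ∃ m', m = m' + 1 ∧ w = yw n m' := by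
  cases m with
  | zero =>
    exfalso
    have h' : w ++ [a] = List.replicate n .y ++ [.z] := by simpa [yw] using h
    have := (List.append_inj' h' rfl).2
    exact hz (List.cons.inj this).1
  | succ m =>
    have h' : w ++ [a] = yw n m ++ [.yb] := by
      rw [h, yw, yw, List.replicate_succ']
      simp [List.append_assoc]
    obtain ⟨h1, h2⟩ := List.append_inj' h' rfl
    exact ⟨(List.cons.inj h2).1, m, rfl, h1⟩

theorem yw_first {n m : ℕ} {w : List (Ext Unit)} {a : Ext Unit} (h : a :: w = yw n m) :
    (a = .y ∧ ∃ n', n = n' + 1 ∧ w = yw n' m) ∨ a = .z := by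
  cases n with
  | zero =>
    right
    have h' : a :: w = .z :: List.replicate m .yb := by simpa [yw] using h
    exact (List.cons.inj h').1
  | succ n =>
    left
    have h' : a :: w = .y :: yw n m := by
      rw [h, yw, yw, List.replicate_succ]
      simp
    exact ⟨(List.cons.inj h').1, n, rfl, (List.cons.inj h').2⟩

theorem v3_first {v : Var} {w : List (Ext Unit)} (h : Der Unit v w) (hv : v = .v3) :
    ∃ u, w = .yb :: u := by
  induction h with
  | v1a => simp at hv
  | v1b => simp at hv
  | v1c => simp at hv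
  | v2a => simp at hv
  | v2b => simp at hv
  | v2c => simp at hv
  | v3a w x _ ih => obtain ⟨u, rfl⟩ := ih hv; exact ⟨_, rfl⟩
  | v3b w _ ih => obtain ⟨u, rfl⟩ := ih hv; exact ⟨_, rfl⟩
  | v3c w _ ih => obtain ⟨u, rfl⟩ := ih hv; exact ⟨_, rfl⟩
  | v3d => exact ⟨[], rfl⟩

theorem der_eq {v : Var} {w : List (Ext Unit)} (h : Der Unit v w) :
    v ≠ .v3 → ∀ n m, w = yw n m → n = m := by
  induction h with
  | v1a w _ ih =>
    intro _ n m h
    have h' : .y :: (w ++ [.yb]) = yw n m := by simpa using h
    rcases yw_first h' with ⟨_, n', rfl, h1⟩ | h1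
    · obtain ⟨_, m', rfl, h2⟩ := yw_last h1 (by simp)
      rw [ih (by simp) n' m' h2]
    · simp at h1
  | v1b w h3 _ =>
    intro _ n m h
    obtain ⟨u, rfl⟩ := v3_first h3 rfl
    have h' : .yb :: (u ++ [.z]) = yw n m := by simpa using h
    rcases yw_first h' with ⟨h1, _⟩ | h1
    · simp at h1
    · simp at h1
  | v1c =>
    intro _ n m h
    have h1 := congrArg List.length h
    simp [yw] at h1
    omega
  | v2a w x _ _ =>
    intro _ n m h
    have := (yw_last h (by simp)).1
    simp at this
  | v2b w _ _ =>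
    intro _ n m h
    have := (yw_last h (by simp)).1
    simp at this
  | v2c w _ ih =>
    intro _ n m h
    exact ih (by simp) n m h
  | v3a => intro h; exact absurd rfl h
  | v3b => intro h; exact absurd rfl h
  | v3c => intro h; exact absurd rfl h
  | v3d => intro h; exact absurd rfl h

theorem der_yw (n : ℕ) : Der Unit .v1 (yw n n) := by
  induction n with
  | zero => exact Der.v1c
  | succ n ih =>
    have : yw (n + 1) (n + 1) = [.y] ++ yw n n ++ [.yb] := by
      rw [yw, List.replicate_succ, List.replicate_succ' (a := (.yb : Ext Unit)), yw]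
      simp
    rw [this]
    exact Der.v1a _ (Der.v2c _ ih)

/-- the language `{xx}` -/
def LX : Set (List Unit) := {[(), ()]}

theorem reg_LX : Reg Unit LX := by
  refine ⟨Fin 4, inferInstance, ⟨fun s _ => if s = 0 then 1 else if s = 1 then 2 else 3, 0, {2}⟩, ?_⟩
  ext w
  change List.foldl (fun (s : Fin 4) (_ : Unit) => if s = 0 then 1 else if s = 1 then 2 else 3) 0 w ∈
    ({2} : Set (Fin 4)) ↔ w ∈ LX
  rcases w with _ | ⟨⟨⟩, _ | ⟨⟨⟩, _ | ⟨⟨⟩, w⟩⟩⟩
  · simp [LX]
  · simp [LX]
  · simp [LX]
  · have : ∀ (w : List Unit), List.foldl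
        (fun (s : Fin 4) (_ : Unit) => if s = 0 then (1 : Fin 4) else if s = 1 then 2 else 3) 3 w = 3 := by
      intro w
      induction w with
      | nil => rfl
      | cons _ w ih => exact ih
    simp [LX, this]

theorem split_x {a b a' b' : List (Ext Unit)} (h : a ++ [.old ()] ++ b = a' ++ [.old ()] ++ b')
    (ha' : Ext.old () ∉ a') (hb' : Ext.old () ∉ b') : a = a' := by
  rw [List.append_assoc, List.append_assoc] at h
  rcases List.append_eq_append_iff.1 h with ⟨c, hc, hd⟩ | ⟨c, hc, hd⟩
  · cases c with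
    | nil => simpa using hc.symm
    | cons t c =>
      exfalso
      rw [List.singleton_append, List.cons_append] at hd
      apply ha'
      rw [hc, (List.cons.inj hd).1]
      simp
  · cases c with
    | nil => simpa using hc
    | cons t c =>
      exfalso
      rw [List.singleton_append, List.cons_append] at hd
      apply hb'
      rw [(List.cons.inj hd).2]
      simp

theorem mem_T_iff (n m : ℕ) :
    [.z, .yb, .old ()] ++ List.replicate n .y ++ ([.z] ++ List.replicate m .yb ++ [.old (), .y]) ∈
      T LX ↔ n = m := by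
  constructor
  · rintro ⟨f, hf, u, b, hu, hb, h⟩
    have hf' : f = [(), ()] := hf
    subst hf'
    cases hu with
    | cons _ _ _ a w ha hw =>
      cases hw with
      | single _ =>
        have h1 : yw n m ++ [.old ()] ++ [.y] = a ++ [.old ()] ++ b := by
          simpa [yw] using h
        have hno : Ext.old () ∉ yw n m := by
          intro hx
          simp [yw] at hx
        have h2 : a = yw n m := split_x h1.symm hno (by simp)
        rcases ha with ha | ha
        · rw [ha] at h2
          have := congrArg List.length h2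
          simp [yw] at this
        · exact der_eq ha (by simp) n m h2
  · rintro rfl
    refine ⟨[(), ()], rfl, [.old ()] ++ yw n n ++ [.old ()], [.y], ?_, Or.inl rfl, ?_⟩
    · exact Body.cons () () [] _ _ (Or.inr (der_yw n)) (Body.single ())
    · simp [yw]

theorem not_closed : ¬ IsClosedUnderT Reg := by
  intro h
  obtain ⟨σ, _, D, hD⟩ := h Unit LX reg_LX
  have hmem : ∀ w, w ∈ T LX ↔ D.evalFrom D.start w ∈ D.accept := by
    intro w
    change w ∈ (T LX : Language (Ext Unit)) ↔ _
    rw [← hD]
    rfl
  obtain ⟨n, m, hnm, he⟩ := Finite.exists_ne_map_eq_of_infinite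
    (fun n : ℕ => D.evalFrom D.start ([.z, .yb, .old ()] ++ List.replicate n .y))
  apply hnm
  have h1 := (mem_T_iff m m).2 rfl
  rw [hmem, DFA.evalFrom_of_append] at h1
  rw [← he, ← DFA.evalFrom_of_append, ← hmem] at h1
  exact (mem_T_iff n m).1 h1

/-- Some `{agsm⁻¹}`-principal family is `C`-principal but not closed under `T`. -/
theorem result : ∃ F : Family, IsAgsmPrincipal F ∧ IsCPrincipal F ∧ ¬ IsClosedUnderT F :=
  ⟨Reg, reg_agsm, reg_c, not_closed⟩

end Pool.Agent.Results.MP_c9c291_lc.RegularFamily
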